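import Pool.Agent.Lib.MP_6d445e_gt.Ult

/-!
# Names of reals, interpretations, slaloms, P-points, Miller forcing: definitions

A name of a set of natural numbers over a complete Boolean algebra `A` is a function `x : ℕ → A`; its
value in an ultrafilter `g` is `{n | x n ∈ g}`.  A name of a function from `ℕ` to `ℕ` is a function
`F : ℕ → ℕ → A`.  `In N x` and `club` are as in `Pool.Agent.Lib.MP_e6fef2_lc.Base`.
-/

universe u v w

open Cardinal Filter

namespace Pool.Agent.Lib.MP_6d445e_gt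

open Pool.Agent.Lib.MP_100a6c_lc
open Pool.Agent.Lib.MP_c5d73d_lc.F (pr)
open Pool.Agent.Lib.MP_e6fef2_lc

/-! ## Names -/

section

variable {A C : Type u} [CompleteBooleanAlgebra A] [CompleteBooleanAlgebra C]

/-- The complement of a name of a set. -/
def cpl (x : ℕ → A) : ℕ → A := fun n => (x n)ᶜ

/-- `F` is a name of a function from `ℕ` to `ℕ`. -/
def IsFN (F : ℕ → ℕ → A) : Prop := ∀ᶠ g in ae A, ∀ n, ∃! k, F n k ∈ g

/-- The value of the name of a function. -/
noncomputable def fv (F : ℕ → ℕ → A) (g : Ult A) (n : ℕ) : ℕ := sInf {k | F n k ∈ g}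

/-- The Boolean value of: the names `z` (over `A`) and `x` (over `C`) agree below `k`. -/
def agr (f : A → C) (z : ℕ → A) (x : ℕ → C) (k : ℕ) : C :=
  ⨅ n, ⨅ _ : n < k, (f (z n) ⊓ x n) ⊔ ((f (z n))ᶜ ⊓ (x n)ᶜ)

/-- `π` is additive and `A`-linear; examples are `prj f` and `lp t` below. -/
structure AddM (f : A → C) (π : C → A) : Prop where
  sup : ∀ c c', π (c ⊔ c') = π c ⊔ π c'
  lin : ∀ c a, π (c ⊓ f a) = π c ⊓ a

/-- The Boolean value of: `z` is an interpretation of `x` below `c` (with respect to `π`). -/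
def itp (f : A → C) (π : C → A) (c : C) (x : ℕ → C) (z : ℕ → A) : A := ⨅ k, π (c ⊓ agr f z x k)

end

/-! ## Slaloms -/

section

variable {A C : Type u} [CompleteBooleanAlgebra A] [CompleteBooleanAlgebra C]

/-- Almost everywhere on `a`, `x` is a name of a subset of `ℕ × ℕ` (coded by `Nat.pair`) whose `p`-th
section has at most `r p` elements. -/
def SlOn (r : ℕ → ℕ) (a : A) (x : ℕ → A) : Prop :=
  ∀ᶠ g in ae A, a ∈ g → ∀ p, {i | x (Nat.pair p i) ∈ g}.encard ≤ r p

/-- `x` is a name of a slalom (of a size bounded by a function of the ground universe). -/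
def Sl (x : ℕ → A) : Prop := ∃ r, SlOn r ⊤ x

/-- The union of `x` and of the points `(p, i)` of `y` with `k ≤ p`. -/
def adn (x y : ℕ → A) (k : ℕ) : ℕ → A := fun n => x n ⊔ ⨆ _ : k ≤ n.unpair.1, y n

/-- The Boolean value of: `x` and `Y` have no common point `(p, i)` with `n ≤ p`. -/
def disn (n : ℕ) (x Y : ℕ → A) : A :=
  ⨅ p, ⨅ _ : n ≤ p, ⨅ i, (x (Nat.pair p i) ⊓ Y (Nat.pair p i))ᶜ

/-- The Boolean value of: `x` and `Y` are disjoint. -/
def dis (x Y : ℕ → A) : A := disn 0 x Y

/-- The Boolean value of: there are infinitely many `k` with `i < k` for all `(p, i) ∈ Y`, `p < k`. -/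
def cut (Y : ℕ → A) : A :=
  ⨅ m, ⨆ k, ⨆ _ : m ≤ k, ⨅ p, ⨅ _ : p < k, ⨅ i, ⨅ _ : k ≤ i, (Y (Nat.pair p i))ᶜ

/-- The Boolean value of: the ultrafilter `G` is `N`-generic, and `Y` is good over `N[G]`. -/
def gc (N : Set El.{u}) (Y : ℕ → A) : A :=
  gen A N ⊓ cut Y ⊓ ⨅ x : ℕ → A, ⨅ _ : In N x, ⨅ _ : Sl x, ⨆ n, disn n x Y

/-- `C` is an extension of `A` which preserves good sets `Y`. -/
def PRES (f : A → C) : Prop :=
  ∀ᶠ N in club, ∀ (Y : ℕ → A) (c : C) (x : ℕ → C) (z : ℕ → A), In N c → In N x → Sl x → In N z →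
    gc N Y ⊓ itp f (prj f) c x z ⊓ dis z Y ≤
      prj f (gc N (fun n => f (Y n)) ⊓ c ⊓ dis x fun n => f (Y n))

end

/-! ## P-points -/

/-- Infinite sets of natural numbers, ordered by almost inclusion. -/
def Sw : Type u := {B : ULift.{u} (Set ℕ) // B.down.Infinite}

/-- The set of natural numbers. -/
def Sw.S (B : Sw.{u}) : Set ℕ := B.1.down

theorem Sw.infinite (B : Sw.{u}) : B.S.Infinite := B.2

instance : Preorder Sw.{u} where
  le B B' := (B.S \ B'.S).Finite
  le_refl B := by simp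
  le_trans B B' B'' h h' := (h.union h').subset (by
    intro n hn
    by_cases h1 : n ∈ B'.S
    · exact Or.inr ⟨h1, hn.2⟩
    · exact Or.inl ⟨hn.1, h1⟩)

theorem Sw.le_def (B B' : Sw.{u}) : B ≤ B' ↔ (B.S \ B'.S).Finite := Iff.rfl

section

variable {A : Type u} [CompleteBooleanAlgebra A] (ι : H1.RO Sw.{u} → A)

/-- The Boolean value of: `x` contains an element of the generic ultrafilter. -/
noncomputable def pos (x : ℕ → A) : A := ⨆ B : Sw.{u}, ι (pr B) ⊓ ⨅ n ∈ B.S, x n

/-- The generic ultrafilter of `Sw` generates an ultrafilter in the extension by `A`. -/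
def PP : Prop := ∀ x : ℕ → A, pos ι x ⊔ pos ι (cpl x) = ⊤

end

/-! ## Miller forcing -/

/-- Strictly increasing lists. -/
def Inc (t : List ℕ) : Prop := t.Pairwise (· < ·)

/-- `t` and `t'` are comparable. -/
def Cmp (t t' : List ℕ) : Prop := t <+: t' ∨ t' <+: t

/-- Superperfect trees of strictly increasing finite sequences. -/
structure IsMil (T : Set (List ℕ)) : Prop where
  nil : [] ∈ T
  pre : ∀ t t', t <+: t' → t' ∈ T → t ∈ T
  inc : ∀ t ∈ T, Inc t
  spl : ∀ t ∈ T, ∃ t', t <+: t' ∧ ∀ m, ∃ k, m ≤ k ∧ t' ++ [k] ∈ T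

section

variable (A : Type u) [CompleteBooleanAlgebra A]

/-- Names of superperfect trees. -/
def MX : Type u := {τ : List ℕ → A // ∀ᶠ g in ae A, IsMil {t | τ t ∈ g}}

/-- The name of Miller forcing: names of superperfect trees, ordered by inclusion. -/
def MQ : BPre A (MX A) where
  le τ τ' := ⨅ t, τ.1 t ⇨ τ'.1 t
  refl τ := by simp
  trans τ τ' τ'' := by
    refine le_iInf fun t => ?_
    rw [le_himp_iff]
    have h1 : (⨅ t, τ.1 t ⇨ τ'.1 t) ⊓ (⨅ t, τ'.1 t ⇨ τ''.1 t) ⊓ τ.1 t ≤ τ'.1 t :=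
      le_trans (le_inf (inf_le_left.trans (inf_le_left.trans (iInf_le _ t))) inf_le_right)
        himp_inf_le
    exact le_trans (le_inf (inf_le_left.trans (inf_le_right.trans (iInf_le _ t))) h1) himp_inf_le

/-- The extension of `A` by Miller forcing. -/
abbrev MC : Type u := TwS (MQ A)

/-- The embedding of `A` into its extension by Miller forcing. -/
noncomputable abbrev mE : A → MC A := twE (MQ A)

variable {A}

/-- The Boolean value of: the name of a tree is in the generic filter. -/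
noncomputable abbrev mG (τ : MX A) : MC A := twG (MQ A) τ

/-- The Boolean value of: `t ∈ τ` and all nodes of `τ` are comparable with `t`. -/
def stm (τ : MX A) (t : List ℕ) : A := τ.1 t ⊓ ⨅ t', ⨅ _ : ¬ Cmp t' t, (τ.1 t')ᶜ

/-- The Boolean value of: `t` is an initial segment of the Miller real. -/
noncomputable def ND (t : List ℕ) : MC A := ⨆ τ : MX A, mE A (stm τ t) ⊓ mG τ

/-- The Boolean value of: `c` is compatible with infinitely many successors of the node `t`. -/
noncomputable def lp (t : List ℕ) (c : MC A) : A :=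
  ⨅ m, ⨆ k, ⨆ _ : m ≤ k, prj (mE A) (c ⊓ ND (t ++ [k]))

/-- The Boolean value of: `τ` forces `c`. -/
noncomputable def fo (τ : MX A) (c : MC A) : A := (prj (mE A) (mG τ ⊓ cᶜ))ᶜ

/-- The name of the function which maps `n` to the least entry of the Miller real above `n`. -/
noncomputable def nxt (n k : ℕ) : MC A := ⨆ t : List ℕ, ⨆ _ : (∀ i ∈ t, i ≤ n) ∧ n < k, ND (t ++ [k])

end

end Pool.Agent.Lib.MP_6d445e_gt
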