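import Pool.Agent.Lib.MP_6d445e_gt.Base

/-!
# Statements of the modules, part 1: fusion, interpretations, preservation, Miller forcing

The proofs are in `Paper.md`.
-/

universe u v w

open Cardinal Filter

namespace Pool.Agent.Lib.MP_6d445e_gt

open Pool.Agent.Lib.MP_100a6c_lc
open Pool.Agent.Lib.MP_c5d73d_lc.F (pr)
open Pool.Agent.Lib.MP_e6fef2_lc

/-! ## Tools -/

/-- NG: almost every ultrafilter containing `gen A N` is `N`-generic. -/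
def NgStatement : Prop := ∀ (A T : Type u) [CompleteBooleanAlgebra A], ∀ᶠ N in club,
  ∀ᶠ g in ae A, gen A N ∈ g → ∀ φ : T → A, In N φ → (⨆ t, φ t) ∈ g → ∃ t, In N t ∧ φ t ∈ g

/-- DISJ: disjoint refinement. -/
def DisjStatement : Prop := ∀ (A : Type u) [CompleteBooleanAlgebra A] (T : Type u) (a : T → A),
  ∃ b : T → A, (∀ t, b t ≤ a t) ∧ (∀ t t', t ≠ t' → b t ⊓ b t' = ⊥) ∧ ⨆ t, b t = ⨆ t, a t

/-- SLA: names of slaloms. -/
def SlaStatement : Prop := ∀ (A : Type u) [CompleteBooleanAlgebra A],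
  (∀ (r : ℕ → ℕ) (a : A) (x : ℕ → A), SlOn r a x ↔ ∀ p, ∀ F : Finset ℕ, F.card = r p + 1 →
    a ⊓ ⨅ i ∈ F, x (Nat.pair p i) = ⊥) ∧
  (∀ (r r' : ℕ → ℕ) (a a' : A) (x : ℕ → A), (∀ p, r p ≤ r' p) → a' ≤ a → SlOn r a x →
    SlOn r' a' x) ∧
  (∀ (r r' : ℕ → ℕ) (a : A) (x x' : ℕ → A), SlOn r a x → SlOn r' a x' →
    SlOn (fun p => r p + r' p) a fun n => x n ⊔ x' n) ∧
  (∀ (r : ℕ → ℕ) (a : A) (x x' : ℕ → A), (∀ n, a ⊓ x' n ≤ x n) → SlOn r a x → SlOn r a x') ∧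
  (∀ (r : ℕ → ℕ) (a : A) (x : ℕ → ℕ → A) (s : ℕ → ℕ), (∀ k, SlOn r a (x k)) →
    SlOn (fun p => (s p + 1) * r p) a fun n => ⨆ k, ⨆ _ : k ≤ s n.unpair.1, x k n) ∧
  (∀ (T : Type u) (a : T → A) (r : ℕ → ℕ) (x : ℕ → A), (∀ t, SlOn r (a t) x) →
    SlOn r (⨆ t, a t) x)

/-- ITP: basic facts on interpretations. -/
def ItpStatement : Prop := ∀ (A C : Type u) [CompleteBooleanAlgebra A] [CompleteBooleanAlgebra C]
  (f : A → C), IsCE f →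
  (∀ (z : ℕ → A) (x : ℕ → C) (k : ℕ) (h : Ult C), agr f z x k ∈ h ↔
    ∀ n < k, (f (z n) ∈ h ↔ x n ∈ h)) ∧
  (∀ (z : ℕ → A) (x : ℕ → C) (k k' : ℕ), k ≤ k' → agr f z x k' ≤ agr f z x k) ∧
  AddM f (prj f) ∧ AddM f (fun c => prj f c) ∧
  ∀ π : C → A, AddM f π →
    π ⊥ = ⊥ ∧ (∀ c c', c ≤ c' → π c ≤ π c') ∧
    (∀ c x z, itp f π c x z ≤ π c) ∧
    (∀ c c' x z, c ≤ c' → itp f π c x z ≤ itp f π c' x z) ∧
    (∀ c x z a, itp f π (c ⊓ f a) x z = itp f π c x z ⊓ a) ∧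
    (∀ c x z y k, c ≤ agr f y x k → itp f π c x z ≤ agr (fun a : A => a) y z k) ∧
    (∀ c x z, itp f π c (cpl x) (cpl z) = itp f π c x z) ∧
    (∀ c x z z' a, (∀ n, a ⊓ z n = a ⊓ z' n) → a ⊓ itp f π c x z = a ⊓ itp f π c x z') ∧
    (∀ c x z r, SlOn r c x → SlOn r (itp f π c x z) z)

/-- ITP2: interpretations and composition. -/
def Itp2Statement : Prop := ∀ (A B C : Type u) [CompleteBooleanAlgebra A]
  [CompleteBooleanAlgebra B] [CompleteBooleanAlgebra C] (f : A → B) (g : B → C), IsCE f → IsCE g →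
  (∀ (c : C) (x : ℕ → C) (z : ℕ → A) (x' : ℕ → B),
    (∀ k, prj g (c ⊓ agr (fun a => g (f a)) z x k) ≤ agr f z x' k) →
      itp (fun a => g (f a)) (prj fun a => g (f a)) c x z ≤ itp f (prj f) (prj g c) x' z) ∧
  (∀ (c : C) (x : ℕ → C) (z : ℕ → B) (z' : ℕ → A) (b : B), b ≤ itp g (prj g) c x z →
    prj f b ≤ itp f (prj f) b z z' →
      prj f b ≤ itp (fun a => g (f a)) (prj fun a => g (f a)) c x z')

/-- LB: there is an interpretation of `x` below `c` which follows the name `y` as long as this is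
possible. -/
def LbStatement : Prop := ∀ (A C : Type u) [CompleteBooleanAlgebra A] [CompleteBooleanAlgebra C]
  (f : A → C), IsCE f → ∀ π : C → A, AddM f π → ∀ (c : C) (x : ℕ → C) (y : ℕ → A),
    ∃ z : ℕ → A, π c ≤ itp f π c x z ∧ ∀ k, π (c ⊓ agr f y x k) ≤ agr (fun a : A => a) y z k

/-! ## Fusion along a sequence of algebras -/

/-- AF: abstract fusion.  `X n` is the set of states at stage `n`, `u n x` the value of: `x` is good,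
`E n x x'` means that `x'` is a possible next state. -/
def AfStatement : Prop := ∀ (A : ℕ → Type u) [∀ n, CompleteBooleanAlgebra (A n)]
  (f : ∀ n, A n → A (n + 1)) (C : Type u) [CompleteBooleanAlgebra C] (e : ∀ n, A n → C),
  (∀ n, IsCE (f n)) → (∀ n, IsCE (e n)) → (∀ n a, e (n + 1) (f n a) = e n a) →
  (∀ q : ∀ n, A n, (∀ n, prj (f n) (q (n + 1)) = q n) → prj (e 0) (⨅ n, e n (q n)) = q 0) →
  ∀ (X : ℕ → Type v) [∀ n, Countable (X n)] (u : ∀ n, X n → A n) (E : ∀ n, X n → X (n + 1) → Prop),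
    (∀ n x, u n x ≤ prj (f n) (⨆ x', ⨆ _ : E n x x', u (n + 1) x')) →
    ∀ (x0 : X 0) (a : A 0), a ≤ u 0 x0 → ∃ p : C, prj (e 0) p = a ∧
      ∀ᶠ h in ae C, p ∈ h → ∃ ξ : ∀ n, X n, ξ 0 = x0 ∧
        ∀ n, E n (ξ n) (ξ (n + 1)) ∧ e n (u n (ξ n)) ∈ h

/-! ## P-points -/

/-- SGS: strongly generic conditions of `Sw`; the first step. -/
def SgsStatement : Prop := SGC Sw.{u} ∧ PP (fun x : H1.RO Sw.{u} => x)

/-- P2: the generic ultrafilter generates a P-point. -/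
def P2Statement : Prop := ∀ (A : Type u) [CompleteBooleanAlgebra A] (ι : H1.RO Sw.{u} → A),
  IsCE ι → PE ι → ∀ b : ℕ → ℕ → A, ⨅ k, pos ι (b k) ≤
    ⨆ B : Sw.{u}, ι (pr B) ⊓ ⨅ k, ⨆ m, ⨅ n ∈ B.S, ⨅ _ : m ≤ n, b k n

/-- GAP: for a sequence of names in `N` of elements of the ultrafilter, infinitely many `b k` contain
the elements of `s` above `k`. -/
def GapStatement : Prop := ∀ (A : Type u) [CompleteBooleanAlgebra A] (ι : H1.RO Sw.{u} → A),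
  IsCE ι → PE ι → PP ι → ∀ T : Type u, ∀ᶠ N in club, ∀ s : Sw.{u}, SG N s →
    ∀ (w : ℕ → T → A) (b : ℕ → T → ℕ → A), In N w → In N b →
      (∀ k t, w k t ≤ pos ι (b k t)) →
        ∀ᶠ g in ae A, ι (pr s) ∈ g → gen A N ∈ g → (∀ k, (⨆ t, w k t) ∈ g) →
          ∀ m, ∃ k, m ≤ k ∧ ∃ t, In N t ∧ w k t ∈ g ∧ ∀ n ∈ s.S, k ≤ n → b k t n ∈ g

/-- PPLIM: preservation of the P-point at limits. -/
def PplimStatement : Prop := ∀ (L : Type u) [LinearOrder L] [Nonempty L] (A : L → Type u)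
  [∀ i, CompleteBooleanAlgebra (A i)] (f : ∀ i j, A i → A j) (C : Type u)
  [CompleteBooleanAlgebra C] (e : ∀ i, A i → C) (ι : ∀ i, H1.RO Sw.{u} → A i),
  IsCh A f → IsTop A f e → TP A f e → DP A e → (∀ i j, i ≤ j → PE (f i j)) → (∀ i, IsCE (ι i)) →
  (∀ i, PE (ι i)) → (∀ i j, i ≤ j → ∀ x, f i j (ι i x) = ι j x) → (∀ i, PP (ι i)) →
    ∀ i, PP (fun x => e i (ι i x))

/-! ## Good sets -/

/-- SEQ: the sequence lemma. -/
def SeqStatement : Prop := ∀ (A T : Type u) [CompleteBooleanAlgebra A], ∀ᶠ N in club,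
  ∀ (w : ℕ → T → A) (b : ℕ → T → ℕ → A) (z : ℕ → A) (r : ℕ → ℕ), In N w → In N b →
    In N z → (∀ k t, w k t ≤ agr (fun a : A => a) z (b k t) k) →
    (∀ k t, SlOn r (w k t) (b k t)) →
    ∀ Y : ℕ → A, ∀ᶠ g in ae A, gc N Y ∈ g → dis z Y ∈ g → (∀ k, (⨆ t, w k t) ∈ g) →
      ∀ m, ∃ k, m ≤ k ∧ ∃ t, In N t ∧ w k t ∈ g ∧ dis (b k t) Y ∈ g

/-- PRC: composition. -/
def PrcStatement : Prop := ∀ (A B C : Type u) [CompleteBooleanAlgebra A]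
  [CompleteBooleanAlgebra B] [CompleteBooleanAlgebra C] (f : A → B) (g : B → C), IsCE f → IsCE g →
  PRES f → PRES g → PRES (fun a => g (f a))

/-- PRI: isomorphisms; `PRES` implies properness. -/
def PriStatement : Prop := ∀ (A B : Type u) [CompleteBooleanAlgebra A]
  [CompleteBooleanAlgebra B] (f : A → B), IsCE f →
  (PRES f → PE f) ∧ (Function.Surjective f → PRES f)

/-- PRLIM: preservation of good sets at limits. -/
def PrlimStatement : Prop := ∀ (L : Type u) [LinearOrder L] (A : L → Type u)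
  [∀ i, CompleteBooleanAlgebra (A i)] (f : ∀ i j, A i → A j) (C : Type u)
  [CompleteBooleanAlgebra C] (e : ∀ i, A i → C), IsCh A f → IsTop A f e → TP A f e → DP A e →
  (∀ i j, i ≤ j → PRES (f i j)) → ∀ i, PRES (e i)

/-! ## Miller forcing -/

/-- ND: nodes of the Miller real. -/
def NdStatement : Prop := ∀ (A : Type u) [CompleteBooleanAlgebra A],
  Nonempty (MX A) ∧ (ND [] : MC A) = ⊤ ∧
  (∀ t t', t <+: t' → (ND t' : MC A) ≤ ND t) ∧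
  (∀ t t', ¬ Cmp t t' → (ND t : MC A) ⊓ ND t' = ⊥) ∧
  (∀ t, (ND t : MC A) = ⨆ k, ND (t ++ [k])) ∧
  (∀ t, ¬ Inc t → (ND t : MC A) = ⊥) ∧
  (∀ (τ : MX A) t, prj (mE A) (mG τ ⊓ ND t) = τ.1 t) ∧
  (∀ (τ : MX A) t, mE A (stm τ t) ⊓ mG τ ≤ ND t)

/-- MXF: conditions of Miller forcing. -/
def MxfStatement : Prop := ∀ (A : Type u) [CompleteBooleanAlgebra A],
  -- restriction to a node
  (∀ (τ : MX A) t, ∃ τ' : MX A, mE A (τ.1 t) ⊓ mG τ' = mG τ ⊓ ND t ∧ τ.1 t ≤ stm τ' t ∧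
    τ.1 t ≤ (MQ A).le τ' τ) ∧
  -- density
  (∀ c : MC A, c ≠ ⊥ → ∃ (b : A) (τ : MX A), b ≠ ⊥ ∧ mE A b ⊓ mG τ ≤ c) ∧
  (∀ τ : MX A, prj (mE A) (mG τ) = ⊤) ∧
  -- mixing
  (∀ (T : Type u) (a : T → A) (τ : T → MX A), (∀ t t', t ≠ t' → a t ⊓ a t' = ⊥) →
    ∃ τ' : MX A, ∀ t s, a t ⊓ τ'.1 s = a t ⊓ (τ t).1 s) ∧
  (∀ (τ τ' : MX A) (a : A), (∀ s, a ⊓ τ'.1 s = a ⊓ τ.1 s) →
    mE A a ⊓ mG τ' = mE A a ⊓ mG τ) ∧
  -- forcing
  (∀ (τ : MX A) (c : MC A) (a : A), a ≤ fo τ c ↔ mE A a ⊓ mG τ ≤ c) ∧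
  (∀ τ τ' : MX A, fo τ (mG τ') = (MQ A).le τ τ')

/-- LP: the map `lp t`. -/
def LpStatement : Prop := ∀ (A : Type u) [CompleteBooleanAlgebra A],
  (∀ t, AddM (mE A) (lp t)) ∧ (∀ c : MC A, prj (mE A) c = ⨆ t, lp t c) ∧
  (∀ t t' (c : MC A), c ≤ ND t' → lp t c ≠ ⊥ → t' <+: t)

/-- TREE: a tree below `c` with stem `t` such that `z` is still an interpretation. -/
def TreeStatement : Prop := ∀ (A : Type u) [CompleteBooleanAlgebra A] (t : List ℕ) (c : MC A)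
  (x : ℕ → MC A) (z : ℕ → A), ∃ τ : MX A,
    mE A (itp (mE A) (lp t) c x z) ⊓ mG τ ≤ c ∧
    itp (mE A) (lp t) c x z ≤ stm τ t ∧
    itp (mE A) (lp t) c x z ≤ itp (mE A) (lp t) (mG τ) x z

/-- DENS: density of the states. -/
def DensStatement : Prop := ∀ (A : Type u) [CompleteBooleanAlgebra A] (c : MC A) (x : ℕ → MC A),
  prj (mE A) c ≤ ⨆ t, ⨆ τ : MX A, ⨆ z : ℕ → A,
    fo τ c ⊓ stm τ t ⊓ itp (mE A) (lp t) (mG τ) x z

/-- AMF: abstract fusion for Miller forcing.  A state `s` has a node `nd n s`, a tree `τ n s` with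
this stem and a value `gd n s`. -/
def AmfStatement : Prop := ∀ (A : Type u) [CompleteBooleanAlgebra A] (X : ℕ → Type v)
  [∀ n, Countable (X n)] (nd : ∀ n, X n → List ℕ) (τ : ∀ n, X n → MX A) (gd : ∀ n, X n → A)
  (ed : ∀ n, X n → X (n + 1) → A),
  (∀ n s, gd n s ≤ stm (τ n s) (nd n s)) →
  (∀ n s m, gd n s ≤ ⨆ s' : X (n + 1), ⨆ _ : ∃ l, m ≤ l ∧ nd n s ++ [l] <+: nd (n + 1) s',
    gd (n + 1) s' ⊓ ed n s s' ⊓ (MQ A).le (τ (n + 1) s') (τ n s)) →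
  ∀ (s0 : X 0) (a : A), a ≤ gd 0 s0 → ∃ (p : MC A) (P : ∀ n, X n → MC A), prj (mE A) p = a ∧
    ∀ᶠ h in ae (MC A), p ∈ h → ∃ ξ : ∀ n, X n, ξ 0 = s0 ∧ ∀ n, (∀ s, P n s ∈ h ↔ s = ξ n) ∧
      mE A (gd n (ξ n)) ∈ h ∧ mG (τ n (ξ n)) ∈ h ∧ mE A (ed n (ξ n) (ξ (n + 1))) ∈ h ∧
      ND (nd n (ξ n)) ∈ h ∧ ∃ l, nd n (ξ n) ++ [l] <+: nd (n + 1) (ξ (n + 1))

/-- PPMIL: Miller forcing preserves the P-point. -/
def PpmilStatement : Prop := ∀ (A : Type u) [CompleteBooleanAlgebra A] (ι : H1.RO Sw.{u} → A),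
  IsCE ι → PE ι → PP ι → PP (fun x => mE A (ι x))

/-- PRMIL: Miller forcing preserves good sets. -/
def PrmilStatement : Prop := ∀ (A : Type u) [CompleteBooleanAlgebra A], PRES (mE A)

/-- NXT: the next entry function of the Miller real. -/
def NxtStatement : Prop := ∀ (A : Type u) [CompleteBooleanAlgebra A],
  IsFN (nxt : ℕ → ℕ → MC A)

/-! ## Stage 1: the Miller real makes a set good -/

section

variable {A : Type u} [CompleteBooleanAlgebra A]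

/-- `lam` is not bounded by functions of `N[g]` and `om`. -/
def Ub (N : Set El.{u}) (lam om : ℕ → ℕ) (g : Ult A) : Prop :=
  ∀ L Q H : ℕ → ℕ → A, In N L → In N Q → In N H → IsFN L → IsFN Q → IsFN H →
    (∀ᶠ g' in ae A, ∀ k, k ≤ fv L g' k) →
      ∀ m, ∃ k, m ≤ k ∧ fv H g (Nat.pair k (om (fv Q g k))) < lam (fv L g k)

end

/-- SUC: the next splitting node.  The new interpretation `z'` agrees with `z` below `k` and has no
point in the section with index `pair (J l) (om q)` at or above `lam l`. -/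
def SucStatement : Prop := ∀ (A : Type u) [CompleteBooleanAlgebra A], ∀ᶠ N in club,
  ∀ (t : List ℕ) (τ : MX A) (x y : ℕ → MC A) (z : ℕ → A) (D : Set (MC A)) (J : ℕ → ℕ → A),
    In N τ → In N x → In N y → In N z → In N D → In N J → Sl x → Sl y → sSup D = ⊤ → IsFN J →
    (∀ᶠ g in ae A, Monotone (fv J g) ∧ ∀ m, ∃ k, m ≤ fv J g k) →
    ∀ᶠ g in ae A, gen A N ∈ g → itp (mE A) (lp t) (mG τ) x z ∈ g →
      ∀ lam om : ℕ → ℕ, Ub N lam om g → ∀ m, ∃ k l, m ≤ k ∧ k ≤ l ∧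
        ∃ (t' : List ℕ) (τ' : MX A) (z' : ℕ → A) (d : MC A), In N τ' ∧ In N z' ∧ In N d ∧ d ∈ D ∧
          t ++ [l] <+: t' ∧ (MQ A).le τ' τ ∈ g ∧ stm τ' t' ∈ g ∧ fo τ' d ∈ g ∧
          itp (mE A) (lp t') (mG τ') (adn x y k) z' ∈ g ∧
          (∀ i ≤ m, fo τ' (adn x y k i) ∈ g ∨ fo τ' (adn x y k i)ᶜ ∈ g) ∧
          (∀ i < k, z' i ∈ g ↔ z i ∈ g) ∧
          ∀ i, lam l ≤ i → z' (Nat.pair (Nat.pair (fv J g l) (om (t'.foldr max 0))) i) ∉ g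

/-- ST1: a condition of Miller forcing which makes a set good over `N`. -/
def St1Statement : Prop := ∀ (A : Type u) [CompleteBooleanAlgebra A], ∀ᶠ N in club,
  ∀ c : MC A, In N c → ∀ J : ℕ → ℕ → A, In N J → IsFN J →
    (∀ᶠ g in ae A, Monotone (fv J g) ∧ ∀ m, ∃ k, m ≤ fv J g k) →
    ∀ lam rho om th : ℕ → ℕ → A, IsFN lam → IsFN rho → IsFN om → IsFN th →
    ∀ a : A, a ≠ ⊥ → a ≤ gen A N ⊓ prj (mE A) c →
      (∀ᶠ g in ae A, a ∈ g → Ub N (fv lam g) (fv om g) g) →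
      ∃ p : MC A, p ≠ ⊥ ∧ p ≤ c ∧ p ≤ mE A a ∧ ∃ Y : ℕ → MC A, p ≤ gc N Y ∧
        ∀ᶠ h in ae (MC A), p ∈ h → ∀ g : Ult A, (∀ b, b ∈ g ↔ mE A b ∈ h) →
          ∃ (t : ℕ → List ℕ) (q k : ℕ → ℕ), ∀ n,
            (∀ i ∈ t n, i ≤ q n) ∧ q n < k n ∧ k n ≤ q (n + 1) ∧ ND (t n ++ [k n]) ∈ h ∧
            fv th g (q n) ≤ k n ∧
            ∀ i, fv lam g (k n) ≤ i → i ≤ fv rho g (k n) →
              Y (Nat.pair (Nat.pair (fv J g (k n)) (fv om g (q (n + 1)))) i) ∈ h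

end Pool.Agent.Lib.MP_6d445e_gt
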