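import Pool.Agent.Lib.MP_6d445e_gt.Iface
import Pool.Agent.Lib.MP_e6fef2_lc.Chain

/-!
# Statements of the modules, part 2: the iteration, and no group which is a counterexample

The proofs are in `Paper.md`.
-/

universe u v w

open Cardinal Filter

namespace Pool.Agent.Lib.MP_6d445e_gt

open Pool.Agent.Lib.MP_100a6c_lc
open Pool.Agent.Lib.MP_c5d73d_lc.F (pr)
open Pool.Agent.Lib.MP_e6fef2_lc

/-! ## The iteration -/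

/-- CARD: sizes. -/
def CardStatement : Prop := ∀ (κ : Cardinal.{u}) (I : Type u) [LinearOrder I] [WellFoundedLT I],
  Idx κ I → #Sw.{u} < κ ∧ KC I Sw.{u} ∧ #(H1.RO Sw.{u}) < κ ∧
  (∀ (A : Type u) [CompleteBooleanAlgebra A], #A < κ → #(MC A) < κ) ∧
  (∀ (C : Type u) [CompleteBooleanAlgebra C] (ι : H1.RO Sw.{u} → C) (M : Set C), IsCE ι →
    DM ι M → #M < κ → #C < κ ∧ DM ι Set.univ)

/-- TOPM: the next algebra at successors. -/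
def TopmStatement : Prop := ∀ (κ : Cardinal.{u}) (I : Type u) [LinearOrder I] [WellFoundedLT I],
  Idx κ I → ∀ (L : Type u) [LinearOrder L] (A : L → Type u)
  [∀ i, CompleteBooleanAlgebra (A i)] (f : ∀ i j, A i → A j) (ι : ∀ i, H1.RO Sw.{u} → A i),
  GoodCh κ A f ι (fun _ => Set.univ) → ∀ m : L, (∀ i, i ≤ m) →
    GoodTop κ A f ι (fun _ => Set.univ) (C := MC (A m)) (fun i a => mE (A m) (f i m a))
      (fun x => mE (A m) (ι m x)) Set.univ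

/-- The properties of stage `β` of the iteration.  `bk` is not used: `OkM` is stated with `Ok` in
order to use the modules OKG and REC of the library. -/
structure OkM {I : Type u} [LinearOrder I] (κ : Cardinal.{u}) (bk : I → I × I) (β : I)
    (X : I → St I Sw.{u}) : Prop where
  ok : Ok κ bk β X
  univ : (X β).M = Set.univ
  pp : PP (X β).ι
  pres : ∀ i < β, PRES (fun a : (X i).A => (X β).mp i ⟨(X i).A, a⟩)
  succ : ∀ i, i ⋖ β → ∃ φ : MC (X i).A → (X β).A, IsCE φ ∧ Function.Surjective φ ∧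
    ∀ a : (X i).A, φ (mE (X i).A a) = (X β).mp i ⟨(X i).A, a⟩

/-- STEPM: the step of the recursion. -/
def StepmStatement : Prop := ∀ (κ : Cardinal.{u}) (I : Type u) [LinearOrder I] [WellFoundedLT I],
  Idx κ I → ∀ bk : I → I × I, (∀ i, i < (bk i).1) → ∀ (β : I) (X : I → St I Sw.{u}),
    (∀ γ < β, OkM κ bk γ X) → ∃ Y, OkM κ bk β (Function.update X β Y)

/-- The result of the iteration. -/
structure ItM (κ : Cardinal.{u}) (I : Type u) [LinearOrder I] (A : I → Type u)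
    [∀ i, CompleteBooleanAlgebra (A i)] (f : ∀ i j, A i → A j) (ι : ∀ i, H1.RO Sw.{u} → A i)
    (B : Type u) [CompleteBooleanAlgebra B] (e : ∀ i, A i → B) : Prop where
  ch : IsCh A f
  top : IsTop A f e
  ιce : ∀ i, IsCE (ι i)
  ιcomp : ∀ i j, i ≤ j → ∀ x, f i j (ι i x) = ι j x
  pe : ∀ i j, i ≤ j → PE (f i j)
  ιpe : ∀ i, PE (ι i)
  dp : ∀ j, Order.IsSuccLimit j → DPat A f j
  small : ∀ i, #(A i) < κ
  epe : ∀ i, PE (e i)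
  kc : KCA I B
  old : ∀ b : B, ∃ i, ∃ a : A i, b = e i a
  pp : ∀ i, PP (fun x => e i (ι i x))
  mil : ∀ i, ∃ φ : MC (A i) → B, IsCE φ ∧ (∀ a, φ (mE (A i) a) = e i a) ∧ PRES φ

/-- ITM: the iteration. -/
def ItmStatement : Prop := ∀ (κ : Cardinal.{u}) (I : Type u) [LinearOrder I] [WellFoundedLT I],
  Idx κ I → ∃ (A : I → Type u) (_ : ∀ i, CompleteBooleanAlgebra (A i)) (f : ∀ i j, A i → A j)
    (ι : ∀ i, H1.RO Sw.{u} → A i) (B : Type u) (_ : CompleteBooleanAlgebra B)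
    (e : ∀ i, A i → B), Nontrivial B ∧ ItM κ I A f ι B e

/-! ## Reflection -/

/-- REF: closure points of uncountable cofinality. -/
def RefStatement : Prop := ∀ (κ : Cardinal.{u}) (I : Type u) [LinearOrder I] [WellFoundedLT I],
  Idx κ I → ∀ (A : I → Type u) [∀ i, CompleteBooleanAlgebra (A i)] (f : ∀ i j, A i → A j)
  (ι : ∀ i, H1.RO Sw.{u} → A i) (B : Type u) [CompleteBooleanAlgebra B] (e : ∀ i, A i → B),
  ItM κ I A f ι B e → ∀ K : (ℕ → ℕ → B) → Set (ℕ → ℕ → B), (∀ F, #(K F) < κ) → ∀ i0 : I,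
    ∃ i, i0 < i ∧ UC i ∧ Order.IsSuccLimit i ∧ ∀ j < i, ∀ F : ℕ → ℕ → A j,
      ∀ R ∈ K (fun n k => e j (F n k)), ∃ R' : ℕ → ℕ → A i, ∀ n k, R n k = e i (R' n k)

/-- LOC: elements of `N` come from an earlier stage. -/
def LocStatement : Prop := ∀ (L : Type u) [LinearOrder L] (A : L → Type u)
  [∀ i, CompleteBooleanAlgebra (A i)] (f : ∀ i j, A i → A j), IsCh A f → ∀ i, UC i →
  DPat A f i → ∀ᶠ N in club, ∃ j < i, ∀ a : A i, In N a →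
    ∃ a' : A j, gen (A i) N ⊓ a = gen (A i) N ⊓ f j i a'

/-- DOM: a function from an earlier stage dominates all functions with names in `N`. -/
def DomStatement : Prop := ∀ (L : Type u) [LinearOrder L] (A : L → Type u)
  [∀ i, CompleteBooleanAlgebra (A i)] (f : ∀ i j, A i → A j), IsCh A f → ∀ i, UC i →
  DPat A f i → ∀ᶠ N in club, ∃ j < i, ∃ F : ℕ → ℕ → A j, IsFN F ∧
    ∀ H : ℕ → ℕ → A i, In N H → IsFN H → ∀ᶠ g in ae (A i), gen (A i) N ∈ g →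
      ∃ m, ∀ n, m ≤ n → ∀ k, ∀ k' ≤ k,
        fv H g (Nat.pair n k') ≤ fv (fun n k => f j i (F n k)) g (Nat.pair n k)

/-! ## Groups -/

/-- Data of a group `G` with a base `U n` of neighbourhoods of `1` and a dense sequence `d i`:
`Λ` is the set of names of elements of `G`, `rel x n i` is the value of `x ∈ d i * U n`, `quo x y` is
a name of `x⁻¹ * y`, `rd x k` is a name of `x * d k`; `be (pair c i)` is the least `n` with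
`d i⁻¹ * U n * d i ⊆ U (c + 2)`, `en (pair k (pair i c))` the least `j` with
`d k * d i ∈ d j * U (c + 1)`. -/
structure GD (B : Type u) (Λ : Type v) where
  rel : Λ → ℕ → ℕ → B
  inv : Λ → Λ
  quo : Λ → Λ → Λ
  rd : Λ → ℕ → Λ
  be : ℕ → ℕ → B
  en : ℕ → ℕ → B

section

variable {B : Type u} [CompleteBooleanAlgebra B] {Λ : Type v}

/-- The properties of the data of a Menger-bounded group which is not Scheepers-bounded. -/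
structure GDP (Γ : B) (D : GD B Λ) : Prop where
  bf : IsFN D.be
  ef : IsFN D.en
  ii : ∀ x, ∀ᶠ h in ae B, Γ ∈ h → ∀ n i, D.rel (D.inv (D.inv x)) n i ∈ h ↔ D.rel x n i ∈ h
  iq : ∀ x y, ∀ᶠ h in ae B, Γ ∈ h → ∀ n i, D.rel (D.inv (D.quo x y)) n i ∈ h ↔
    D.rel (D.quo y x) n i ∈ h
  tot : ∀ x, ∀ᶠ h in ae B, Γ ∈ h → ∀ n, ∃ i, D.rel x n i ∈ h
  mono : ∀ x, ∀ᶠ h in ae B, Γ ∈ h → ∀ n i, D.rel x (n + 1) i ∈ h → D.rel x n i ∈ h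
  g3a : ∀ v x, ∀ᶠ h in ae B, Γ ∈ h → ∀ n j k i, j + 1 ≤ n → D.rel (D.quo v x) n k ∈ h →
    D.rel x (j + 1) i ∈ h → D.rel (D.rd v k) j i ∈ h
  g3b : ∀ v x, ∀ᶠ h in ae B, Γ ∈ h → ∀ n j k i, j + 1 ≤ n → D.rel (D.quo v x) n k ∈ h →
    D.rel (D.rd v k) (j + 1) i ∈ h → D.rel x j i ∈ h
  g4 : ∀ v x, ∀ᶠ h in ae B, Γ ∈ h → ∀ n k c i j b, b ≤ n → D.rel (D.quo v x) n k ∈ h →
    D.rel (D.inv x) (c + 2) i ∈ h → D.be (Nat.pair c i) b ∈ h →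
    D.en (Nat.pair k (Nat.pair i c)) j ∈ h → D.rel (D.inv v) c j ∈ h
  g5 : ∀ v x, ∀ᶠ h in ae B, Γ ∈ h → ∀ n m k c i j b, b ≤ m → c + 2 ≤ n →
    D.rel (D.quo x v) n k ∈ h → D.rel x m i ∈ h → D.be (Nat.pair c k) b ∈ h →
    D.en (Nat.pair i (Nat.pair k c)) j ∈ h → D.rel v c j ∈ h
  mb : ∀ ν, IsFN ν → (∀ᶠ h in ae B, StrictMono (fv ν h)) → ∃ F, IsFN F ∧ ∀ x,
    ∀ᶠ h in ae B, Γ ∈ h → ∀ m, ∃ n, m ≤ n ∧ fv (D.rel x) h (fv ν h n) ≤ fv F h n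
  fd : ∀ F, IsFN F → ∀ a, a ≠ ⊥ → a ≤ Γ → ∃ b, b ≠ ⊥ ∧ b ≤ a ∧ ∃ E : Finset Λ,
    ∀ᶠ h in ae B, b ∈ h → ∀ n, ∃ x ∈ E, fv F h n ≤ fv (D.rel x) h n

/-- Case 1. -/
def Cas1 (Γ : B) (D : GD B Λ) : Prop := ∀ F, IsFN F → ∀ a, a ≠ ⊥ → a ≤ Γ →
  ∃ b, b ≠ ⊥ ∧ b ≤ a ∧ ∃ x, ∀ᶠ h in ae B, b ∈ h → ∀ m, ∃ n, m ≤ n ∧
    fv F h (Nat.pair n (fv (D.rel (D.inv x)) h (fv F h (Nat.pair n 0)))) < fv (D.rel x) h n

/-- Case 2. -/
def Cas2 (Γ : B) (D : GD B Λ) : Prop := ∃ Ψ ψ F : ℕ → ℕ → B, IsFN Ψ ∧ IsFN ψ ∧ IsFN F ∧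
  (∀ᶠ h in ae B, ∀ n i i', i ≤ i' → fv Ψ h (Nat.pair n i) ≤ fv Ψ h (Nat.pair n i')) ∧
  (∀ x, ∀ᶠ h in ae B, Γ ∈ h → ∃ m, ∀ n, m ≤ n →
    fv (D.rel x) h n ≤ fv Ψ h (Nat.pair n (fv (D.rel (D.inv x)) h (fv ψ h n)))) ∧
  ∀ x, ∀ᶠ h in ae B, Γ ∈ h → ∀ m, ∃ n, m ≤ n ∧ fv (D.rel x) h n ≤ fv F h n ∧
    fv (D.rel (D.inv x)) h n ≤ fv F h n

end

/-- CAS: the two cases. -/
def CasStatement : Prop := ∀ (B : Type u) [CompleteBooleanAlgebra B] (Λ : Type v) (Γ : B)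
  (D : GD B Λ), GDP Γ D → Γ ≠ ⊥ → Cas1 Γ D ∨ ∃ a, a ≠ ⊥ ∧ a ≤ Γ ∧ GDP a D ∧ Cas2 a D

/-- FIN: one element of the group which is large on a set in the generic ultrafilter. -/
def FinStatement : Prop := ∀ (B : Type u) [CompleteBooleanAlgebra B] (ι : H1.RO Sw.{u} → B),
  IsCE ι → PP ι → ∀ (Λ : Type v) (Γ : B) (D : GD B Λ), GDP Γ D → ∀ F, IsFN F → ∀ a, a ≠ ⊥ →
    a ≤ Γ → ∃ c, c ≠ ⊥ ∧ c ≤ a ∧ ∃ (x : Λ) (s : Sw.{u}), ∀ᶠ h in ae B, c ∈ h →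
      ∀ n ∈ s.S, fv F h n ≤ fv (D.rel x) h n

/-- XS1: an element `x` of the group at stage `i` for which case 1 fails over `N`. -/
def Xs1Statement : Prop := ∀ (κ : Cardinal.{u}) (I : Type u) [LinearOrder I] [WellFoundedLT I],
  Idx κ I → ∀ (A : I → Type u) [∀ i, CompleteBooleanAlgebra (A i)] (f : ∀ i j, A i → A j)
  (ι : ∀ i, H1.RO Sw.{u} → A i) (B : Type u) [CompleteBooleanAlgebra B] (e : ∀ i, A i → B),
  ItM κ I A f ι B e → ∀ (Λ : Type v) (Γ : B) (D : GD B Λ), GDP Γ D → Cas1 Γ D → ∀ i0,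
  ∃ i, i0 < i ∧ UC i ∧ ∀ᶠ N in club, ∀ a : A i, a ≠ ⊥ → a ≤ gen (A i) N → e i a ≤ Γ →
    ∃ b, b ≠ ⊥ ∧ b ≤ a ∧ ∃ (x : Λ) (X X' : ℕ → ℕ → A i), (∀ n k, D.rel x n k = e i (X n k)) ∧
      (∀ n k, D.rel (D.inv x) n k = e i (X' n k)) ∧ ∀ᶠ g in ae (A i), b ∈ g →
        ∀ Ψ ψ : ℕ → ℕ → A i, In N Ψ → In N ψ → IsFN Ψ → IsFN ψ → ∀ m, ∃ n, m ≤ n ∧
          fv Ψ g (Nat.pair n (fv X' g (fv ψ g n))) < fv X g n

/-- XS2: an element `x` of the group at stage `i` which is unbounded over `N`. -/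
def Xs2Statement : Prop := ∀ (κ : Cardinal.{u}) (I : Type u) [LinearOrder I] [WellFoundedLT I],
  Idx κ I → ∀ (A : I → Type u) [∀ i, CompleteBooleanAlgebra (A i)] (f : ∀ i j, A i → A j)
  (ι : ∀ i, H1.RO Sw.{u} → A i) (B : Type u) [CompleteBooleanAlgebra B] (e : ∀ i, A i → B),
  ItM κ I A f ι B e → ∀ (Λ : Type v) (Γ : B) (D : GD B Λ), GDP Γ D → ∀ i0,
  ∃ i, i0 < i ∧ UC i ∧ ∀ᶠ N in club, ∀ a : A i, a ≠ ⊥ → a ≤ gen (A i) N → e i a ≤ Γ →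
    ∃ b, b ≠ ⊥ ∧ b ≤ a ∧ ∃ (x : Λ) (X X' : ℕ → ℕ → A i), (∀ n k, D.rel x n k = e i (X n k)) ∧
      (∀ n k, D.rel (D.inv x) n k = e i (X' n k)) ∧ ∀ᶠ g in ae (A i), b ∈ g →
        ∀ H : ℕ → ℕ → A i, In N H → IsFN H → ∀ m, ∃ n, m ≤ n ∧ fv H g n < fv X g n

/-! ## Arithmetic -/

/-- The least element of `S` above or equal to `q`. -/
noncomputable def nx (S : Set ℕ) (q : ℕ) : ℕ := sInf {n | n ∈ S ∧ q ≤ n}

/-- The maximum of `f` on `{0, ..., n}`. -/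
def mx (f : ℕ → ℕ) (n : ℕ) : ℕ := (Finset.range (n + 1)).sup f

/-- The greatest `j ≤ K` with `e (k, i, c) < K` for `n, i, c ≤ j` and `k ≤ f n`. -/
noncomputable def J1 (f en : ℕ → ℕ) (K : ℕ) : ℕ :=
  sSup {j | j ≤ K ∧ ∀ n ≤ j, ∀ i ≤ j, ∀ c ≤ j, ∀ k ≤ f n, en (Nat.pair k (Nat.pair i c)) < K}

/-- The greatest `j ≤ K` with `Ψ (b, e (k, i, c)) < K` for `n, i, c, b ≤ j` and `k ≤ f n`. -/
noncomputable def J2 (f en Ψ : ℕ → ℕ) (K : ℕ) : ℕ :=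
  sSup {j | j ≤ K ∧ ∀ n ≤ j, ∀ i ≤ j, ∀ c ≤ j, ∀ b ≤ j, ∀ k ≤ f n,
    Ψ (Nat.pair b (en (Nat.pair k (Nat.pair i c)))) < K}

/-- The index of the block, case 1. -/
noncomputable def om1 (S : Set ℕ) (f be xi : ℕ → ℕ) (q : ℕ) : ℕ :=
  mx f (max (be (Nat.pair (nx S q) (xi (nx S q + 2)))) (nx S q))

/-- A lower bound for the next entry of the Miller real, case 1. -/
noncomputable def th1 (S : Set ℕ) (f en xi : ℕ → ℕ) (q : ℕ) : ℕ :=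
  sInf {K | nx S q < K ∧ xi (nx S q + 2) < J1 f en K}

/-- The index of the block, case 2. -/
noncomputable def om2 (S : Set ℕ) (f : ℕ → ℕ) (q : ℕ) : ℕ := mx f (nx S q + 2)

/-- A lower bound for the next entry of the Miller real, case 2. -/
noncomputable def th2 (S : Set ℕ) (f be en Ψ ψ xx xi : ℕ → ℕ) (q : ℕ) : ℕ :=
  sInf {K | nx S q < K ∧ xi (ψ (nx S q) + 2) < J2 f en Ψ K ∧ ψ (nx S q) < J2 f en Ψ K ∧
    mx (fun k => en (Nat.pair (xx (be (Nat.pair (nx S q) k))) (Nat.pair k (nx S q))))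
      (mx f (max (be (Nat.pair (ψ (nx S q)) (xi (ψ (nx S q) + 2)))) (nx S q + 2))) < K}

/-- ARI0: the functions `J1` and `J2`. -/
def Ari0Statement : Prop := ∀ f en Ψ : ℕ → ℕ,
  (Monotone (J1 f en) ∧ ∀ m, ∃ K, m ≤ J1 f en K) ∧
  (Monotone (J2 f en Ψ) ∧ ∀ m, ∃ K, m ≤ J2 f en Ψ K) ∧
  (∀ K, 0 < J1 f en K → ∀ n ≤ J1 f en K, ∀ i ≤ J1 f en K, ∀ c ≤ J1 f en K, ∀ k ≤ f n,
    en (Nat.pair k (Nat.pair i c)) < K) ∧
  (∀ K, 0 < J2 f en Ψ K → ∀ n ≤ J2 f en Ψ K, ∀ i ≤ J2 f en Ψ K, ∀ c ≤ J2 f en Ψ K,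
    ∀ b ≤ J2 f en Ψ K, ∀ k ≤ f n, Ψ (Nat.pair b (en (Nat.pair k (Nat.pair i c)))) < K)

/-- ARI1: the contradiction in case 1. -/
def Ari1Statement : Prop := ∀ (S : Set ℕ) (f be en xx xi vi y : ℕ → ℕ) (sl : ℕ → ℕ → ℕ)
  (q k : ℕ → ℕ), S.Infinite → Monotone xx →
  (∀ n j, j + 1 ≤ n → sl (y n) j ≤ xx (j + 1) ∧ xx j ≤ sl (y n) (j + 1)) →
  (∀ n c, be (Nat.pair c (xi (c + 2))) ≤ n →
    vi c ≤ en (Nat.pair (y n) (Nat.pair (xi (c + 2)) c))) →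
  (∀ a, q a < k a ∧ k a ≤ q (a + 1) ∧ th1 S f en xi (q a) ≤ k a) →
  (∀ a, ∀ n ∈ S, q a ≤ n → n < k a → k a ≤ vi n) →
  (∃ m, ∀ a, m ≤ J1 f en (k a) → ∀ w ≤ om1 S f be xi (q (a + 1)),
    xx (J1 f en (k a) - 1) ≤ sl w (J1 f en (k a)) → xx (J1 f en (k a) + 1) < sl w (J1 f en (k a))) →
  ∃ m, ∀ n, m ≤ n → f n < y n

/-- ARI2: the contradiction in case 2. -/
def Ari2Statement : Prop := ∀ (S : Set ℕ) (f be en Ψ ψ xx xi vv vi y y' : ℕ → ℕ)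
  (sl : ℕ → ℕ → ℕ) (q k : ℕ → ℕ), S.Infinite → Monotone xx →
  (∀ n i i', i ≤ i' → Ψ (Nat.pair n i) ≤ Ψ (Nat.pair n i')) →
  (∀ n j, j + 1 ≤ n → sl (y n) j ≤ xx (j + 1) ∧ xx j ≤ sl (y n) (j + 1)) →
  (∀ n c, be (Nat.pair c (xi (c + 2))) ≤ n →
    vi c ≤ en (Nat.pair (y n) (Nat.pair (xi (c + 2)) c))) →
  (∀ n m c, c + 2 ≤ n → be (Nat.pair c (y' n)) ≤ m →
    vv c ≤ en (Nat.pair (xx m) (Nat.pair (y' n) c))) →
  (∃ m, ∀ n, m ≤ n → vv n ≤ Ψ (Nat.pair n (vi (ψ n)))) →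
  (∀ a, q a < k a ∧ k a ≤ q (a + 1) ∧ th2 S f be en Ψ ψ xx xi (q a) ≤ k a) →
  (∀ a, ∀ n ∈ S, q a ≤ n → n < k a → k a ≤ vv n) →
  (∃ m, ∀ a, m ≤ J2 f en Ψ (k a) → ∀ w ≤ om2 S f (q (a + 1)),
    xx (J2 f en Ψ (k a) - 1) ≤ sl w (J2 f en Ψ (k a)) →
      xx (J2 f en Ψ (k a) + 1) < sl w (J2 f en Ψ (k a))) →
  ∃ m, ∀ n, m ≤ n → f n < y n ∨ f n < y' n

/-- UB1: unboundedness over `N`, case 1. -/
def Ub1Statement : Prop := ∀ (A : Type u) [CompleteBooleanAlgebra A], ∀ᶠ N in club,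
  ∀ (s : Sw.{u}) (J F Be : ℕ → ℕ → A), In N s → In N J → In N F → In N Be → IsFN J → IsFN F →
    IsFN Be → (∀ᶠ g in ae A, Monotone (fv J g) ∧ ∀ m, ∃ k, m ≤ fv J g k) →
    ∀ᶠ g in ae A, ∀ xx xi : ℕ → ℕ, Monotone xx →
      (∀ Ψ ψ : ℕ → ℕ → A, In N Ψ → In N ψ → IsFN Ψ → IsFN ψ → ∀ m, ∃ n, m ≤ n ∧
        fv Ψ g (Nat.pair n (xi (fv ψ g n))) < xx n) →
      Ub N (fun K => xx (fv J g K - 1)) (om1 s.S (fv F g) (fv Be g) xi) g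

/-- UB2: unboundedness over `N`, case 2. -/
def Ub2Statement : Prop := ∀ (A : Type u) [CompleteBooleanAlgebra A], ∀ᶠ N in club,
  ∀ (s : Sw.{u}) (J F : ℕ → ℕ → A), In N s → In N J → In N F → IsFN J → IsFN F →
    (∀ᶠ g in ae A, Monotone (fv J g) ∧ ∀ m, ∃ k, m ≤ fv J g k) →
    ∀ᶠ g in ae A, ∀ xx : ℕ → ℕ, Monotone xx →
      (∀ H : ℕ → ℕ → A, In N H → IsFN H → ∀ m, ∃ n, m ≤ n ∧ fv H g n < xx n) →
      Ub N (fun K => xx (fv J g K - 1)) (om2 s.S (fv F g)) g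

/-- KEY: stage 1 and preservation together. -/
def KeyStatement : Prop := ∀ (A B : Type u) [CompleteBooleanAlgebra A]
  [CompleteBooleanAlgebra B] (φ : MC A → B), IsCE φ → PRES φ → ∀ (c : B) (J : ℕ → ℕ → A)
  (x : ℕ → B), IsFN J → (∀ᶠ g in ae A, Monotone (fv J g) ∧ ∀ m, ∃ k, m ≤ fv J g k) → Sl x →
  ∀ᶠ N in club, ∀ a : A, a ≠ ⊥ → a ≤ gen A N ⊓ prj (fun a => φ (mE A a)) c →
    ∀ lam rho om th : ℕ → ℕ → A, IsFN lam → IsFN rho → IsFN om → IsFN th →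
    (∀ᶠ g in ae A, a ∈ g → Ub N (fv lam g) (fv om g) g) →
    ∃ d : B, d ≠ ⊥ ∧ d ≤ c ∧ d ≤ φ (mE A a) ∧ ∀ᶠ h in ae B, d ∈ h →
      ∀ g : Ult A, (∀ b, b ∈ g ↔ φ (mE A b) ∈ h) → ∃ (q k : ℕ → ℕ) (m : ℕ), ∀ n,
        q n < k n ∧ k n ≤ q (n + 1) ∧ fv th g (q n) ≤ k n ∧
        (∀ n', q n ≤ n' → n' < k n → fv (fun n k => φ (nxt n k)) h n' = k n) ∧
        ∀ i, fv lam g (k n) ≤ i → i ≤ fv rho g (k n) → m ≤ fv J g (k n) →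
          x (Nat.pair (Nat.pair (fv J g (k n)) (fv om g (q (n + 1)))) i) ∉ h

/-- COR1: there is no group in case 1. -/
def Cor1Statement : Prop := ∀ (κ : Cardinal.{u}) (I : Type u) [LinearOrder I] [WellFoundedLT I],
  Idx κ I → ∀ (A : I → Type u) [∀ i, CompleteBooleanAlgebra (A i)] (f : ∀ i j, A i → A j)
  (ι : ∀ i, H1.RO Sw.{u} → A i) (B : Type u) [CompleteBooleanAlgebra B] (e : ∀ i, A i → B),
  ItM κ I A f ι B e → ∀ (Λ : Type v) (Γ : B) (D : GD B Λ), GDP Γ D → Cas1 Γ D → Γ = ⊥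

/-- COR2: there is no group in case 2. -/
def Cor2Statement : Prop := ∀ (κ : Cardinal.{u}) (I : Type u) [LinearOrder I] [WellFoundedLT I],
  Idx κ I → ∀ (A : I → Type u) [∀ i, CompleteBooleanAlgebra (A i)] (f : ∀ i j, A i → A j)
  (ι : ∀ i, H1.RO Sw.{u} → A i) (B : Type u) [CompleteBooleanAlgebra B] (e : ∀ i, A i → B),
  ItM κ I A f ι B e → ∀ (Λ : Type v) (Γ : B) (D : GD B Λ), GDP Γ D → Cas2 Γ D → Γ = ⊥

end Pool.Agent.Lib.MP_6d445e_gt
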