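import Pool.Agent.Lib.MP_e6fef2_lc.Iteration

/-!
# Ultrafilters of complete Boolean algebras, and `almost every ultrafilter`

`ae A` is the filter of sets of ultrafilters of `A` which contain all ultrafilters meeting each of
countably many given subsets of `A` with supremum `⊤`.  Boolean inequalities between countable
expressions can be checked by evaluation in almost every ultrafilter.
-/

universe u v w

open Cardinal Filter

namespace Pool.Agent.Lib.MP_6d445e_gt

open Pool.Agent.Lib.MP_100a6c_lc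
open Pool.Agent.Lib.MP_e6fef2_lc

/-- Ultrafilters of `A`. -/
@[ext] structure Ult (A : Type u) [CompleteBooleanAlgebra A] where
  s : Set A
  top : ⊤ ∈ s
  bot : ⊥ ∉ s
  inf : ∀ a b, a ∈ s → b ∈ s → a ⊓ b ∈ s
  up : ∀ a b, a ≤ b → a ∈ s → b ∈ s
  em : ∀ a, a ∈ s ∨ aᶜ ∈ s

section

variable {A : Type u} [CompleteBooleanAlgebra A]

instance : Membership A (Ult A) := ⟨fun g a => a ∈ g.s⟩

namespace Ult

variable (g : Ult A)

theorem mem_top : (⊤ : A) ∈ g := g.top
theorem not_bot : (⊥ : A) ∉ g := g.bot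
theorem mono {a b : A} (h : a ≤ b) (ha : a ∈ g) : b ∈ g := g.up a b h ha

theorem mem_inf {a b : A} : a ⊓ b ∈ g ↔ a ∈ g ∧ b ∈ g :=
  ⟨fun h => ⟨g.mono inf_le_left h, g.mono inf_le_right h⟩, fun h => g.inf a b h.1 h.2⟩

theorem mem_compl {a : A} : aᶜ ∈ g ↔ a ∉ g := by
  constructor
  · intro h h'
    have := g.inf _ _ h' h
    rw [inf_compl_eq_bot] at this
    exact g.bot this
  · intro h
    exact (g.em a).resolve_left h

theorem mem_sup {a b : A} : a ⊔ b ∈ g ↔ a ∈ g ∨ b ∈ g := by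
  constructor
  · intro h
    by_contra hc
    push Not at hc
    have h1 := g.inf _ _ h (g.inf _ _ (g.mem_compl.2 hc.1) (g.mem_compl.2 hc.2))
    rw [← compl_sup, inf_compl_eq_bot] at h1
    exact g.bot h1
  · rintro (h | h)
    · exact g.mono le_sup_left h
    · exact g.mono le_sup_right h

theorem mem_himp {a b : A} : a ⇨ b ∈ g ↔ (a ∈ g → b ∈ g) := by
  rw [himp_eq, mem_sup, mem_compl]
  tauto

theorem mem_finset_iInf {ι : Type*} (s : Finset ι) (a : ι → A) :
    (⨅ i ∈ s, a i) ∈ g ↔ ∀ i ∈ s, a i ∈ g := by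
  classical
  induction s using Finset.induction_on with
  | empty => simp [g.mem_top]
  | insert i s hi ih =>
    rw [Finset.iInf_insert, mem_inf, ih]
    simp

theorem mem_finset_iSup {ι : Type*} (s : Finset ι) (a : ι → A) :
    (⨆ i ∈ s, a i) ∈ g ↔ ∃ i ∈ s, a i ∈ g := by
  classical
  induction s using Finset.induction_on with
  | empty => simp [g.not_bot]
  | insert i s hi ih =>
    rw [Finset.iSup_insert, mem_sup, ih]
    simp

/-- Ultrafilters containing a given nonzero element and closed under a given sequence of sets. -/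
theorem exists_ge (D : Set A) (hD : ∀ a ∈ D, ∀ b ∈ D, ∃ c ∈ D, c ≤ a ⊓ b) (hne : D.Nonempty)
    (hb : ⊥ ∉ D) : ∃ g : Ult A, ∀ a ∈ D, a ∈ g := by
  classical
  -- the filter generated by `D`
  let F : Set (Set A) := {s | D ⊆ s ∧ ⊥ ∉ s ∧ (∀ a b, a ∈ s → b ∈ s → a ⊓ b ∈ s) ∧
    ∀ a b, a ≤ b → a ∈ s → b ∈ s}
  have h0 : {a | ∃ d ∈ D, d ≤ a} ∈ F := by
    refine ⟨fun d hd => ⟨d, hd, le_rfl⟩, ?_, ?_, ?_⟩
    · rintro ⟨d, hd, h⟩
      exact hb (le_bot_iff.1 h ▸ hd)
    · rintro a b ⟨d, hd, h⟩ ⟨e, he, h'⟩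
      obtain ⟨c, hc, h''⟩ := hD d hd e he
      exact ⟨c, hc, le_inf (h''.trans (inf_le_left.trans h)) (h''.trans (inf_le_right.trans h'))⟩
    · rintro a b hab ⟨d, hd, h⟩
      exact ⟨d, hd, h.trans hab⟩
  obtain ⟨M, hM0, hM⟩ := zorn_subset_nonempty F (by
    intro c hc hch hcne
    obtain ⟨s0, hs0⟩ := hcne
    refine ⟨⋃₀ c, ⟨?_, ?_, ?_, ?_⟩, fun s hs => Set.subset_sUnion_of_mem hs⟩
    · exact (hc hs0).1.trans (Set.subset_sUnion_of_mem hs0)
    · rintro ⟨s, hs, h⟩
      exact (hc hs).2.1 h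
    · rintro a b ⟨s, hs, h⟩ ⟨t, ht, h'⟩
      rcases hch.total hs ht with hst | hst
      · exact ⟨t, ht, (hc ht).2.2.1 a b (hst h) h'⟩
      · exact ⟨s, hs, (hc hs).2.2.1 a b h (hst h')⟩
    · rintro a b hab ⟨s, hs, h⟩
      exact ⟨s, hs, (hc hs).2.2.2 a b hab h⟩) _ h0
  obtain ⟨hMD, hMb, hMi, hMu⟩ := hM.prop
  obtain ⟨d0, hd0⟩ := hne
  refine ⟨⟨M, hMu d0 ⊤ le_top (hMD hd0), hMb, hMi, hMu, ?_⟩, fun a ha => hMD ha⟩
  intro a
  by_contra hc
  push Not at hc
  -- adjoin `a`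
  have key : ∀ x : A, x ∉ M → ∃ m ∈ M, m ⊓ x = ⊥ := by
    intro x hx
    by_contra hcon
    push Not at hcon
    have h1 : {y | ∃ m ∈ M, m ⊓ x ≤ y} ∈ F := by
      refine ⟨fun d hd => ⟨d, hMD hd, inf_le_left⟩, ?_, ?_, ?_⟩
      · rintro ⟨m, hm, h⟩
        exact hcon m hm (le_bot_iff.1 h)
      · rintro y z ⟨m, hm, h⟩ ⟨n, hn, h'⟩
        refine ⟨m ⊓ n, hMi _ _ hm hn, le_inf (le_trans ?_ h) (le_trans ?_ h')⟩
        · exact inf_le_inf_right _ inf_le_left
        · exact inf_le_inf_right _ inf_le_right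
      · rintro y z hyz ⟨m, hm, h⟩
        exact ⟨m, hm, h.trans hyz⟩
    have h2 : M ≤ {y | ∃ m ∈ M, m ⊓ x ≤ y} := fun m hm => ⟨m, hm, inf_le_left⟩
    have h3 := hM.eq_of_le h1 h2
    apply hx
    rw [h3]
    exact ⟨⊤, hMu d0 ⊤ le_top (hMD hd0), inf_le_right⟩
  obtain ⟨m, hm, h1⟩ := key a hc.1
  obtain ⟨n, hn, h2⟩ := key _ hc.2
  have h3 : m ⊓ n = ⊥ := by
    have h4 : m ≤ aᶜ := by
      rw [le_compl_iff_disjoint_right, disjoint_iff]; exact h1
    have h5 : n ≤ a := by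
      rw [← compl_compl a, le_compl_iff_disjoint_right, disjoint_iff]; exact h2
    refine le_bot_iff.1 ?_
    calc m ⊓ n ≤ aᶜ ⊓ a := inf_le_inf h4 h5
      _ = ⊥ := compl_inf_self a
  exact hMb (h3 ▸ hMi _ _ hm hn)

end Ult

variable (A) in
/-- Almost every ultrafilter. -/
def ae : Filter (Ult A) where
  sets := {X | ∃ D : ℕ → Set A, (∀ n, sSup (D n) = ⊤) ∧
    ∀ g : Ult A, (∀ n, ∃ d ∈ D n, d ∈ g) → g ∈ X}
  univ_sets := ⟨fun _ => Set.univ, fun _ => by simp, fun _ _ => trivial⟩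
  sets_of_superset := by
    rintro X Y ⟨D, hD, h⟩ hXY
    exact ⟨D, hD, fun g hg => hXY (h g hg)⟩
  inter_sets := by
    rintro X Y ⟨D, hD, h⟩ ⟨E, hE, h'⟩
    refine ⟨fun n => if n % 2 = 0 then D (n / 2) else E (n / 2), fun n => ?_, fun g hg => ?_⟩
    · dsimp only
      split_ifs
      · exact hD _
      · exact hE _
    · refine ⟨h g fun n => ?_, h' g fun n => ?_⟩
      · have := hg (2 * n)
        simpa using this
      · have := hg (2 * n + 1)
        have h1 : (2 * n + 1) % 2 = 1 := by omega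
        have h2 : (2 * n + 1) / 2 = n := by omega
        simpa [h1, h2] using this

theorem ae_of_sSup {D : Set A} (hD : sSup D = ⊤) : ∀ᶠ g in ae A, ∃ d ∈ D, d ∈ g :=
  ⟨fun _ => D, fun _ => hD, fun _ hg => hg 0⟩

theorem ae_all_nat {X : ℕ → Ult A → Prop} (h : ∀ n, ∀ᶠ g in ae A, X n g) :
    ∀ᶠ g in ae A, ∀ n, X n g := by
  choose D hD hX using h
  refine ⟨fun k => D k.unpair.1 k.unpair.2, fun k => hD _ _, fun g hg n => ?_⟩
  refine hX n g fun m => ?_
  have := hg (Nat.pair n m)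
  simpa using this

theorem ae_all {ι : Sort*} [Countable ι] {X : ι → Ult A → Prop} (h : ∀ i, ∀ᶠ g in ae A, X i g) :
    ∀ᶠ g in ae A, ∀ i, X i g := by
  rcases isEmpty_or_nonempty ι with hι | hι
  · exact Filter.Eventually.of_forall fun g i => isEmptyElim i
  · obtain ⟨e, he⟩ := exists_surjective_nat ι
    have h1 := ae_all_nat (X := fun n => X (e n)) fun n => h (e n)
    filter_upwards [h1] with g hg i
    obtain ⟨n, rfl⟩ := he i
    exact hg n

instance : CountableInterFilter (ae A) where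
  countable_sInter_mem S hS h := by
    have : Countable S := hS.to_subtype
    have h1 : ∀ᶠ g in ae A, ∀ s : S, g ∈ s.1 := ae_all fun s => h s.1 s.2
    filter_upwards [h1] with g hg s hs
    exact hg ⟨s, hs⟩

/-- Rasiowa-Sikorski. -/
theorem exists_of_ae {X : Ult A → Prop} (h : ∀ᶠ g in ae A, X g) {a : A} (ha : a ≠ ⊥) :
    ∃ g : Ult A, a ∈ g ∧ X g := by
  classical
  obtain ⟨D, hD, hX⟩ := h
  have step : ∀ n, ∀ b : A, b ≠ ⊥ → ∃ c, c ≠ ⊥ ∧ c ≤ b ∧ ∃ d ∈ D n, c ≤ d := by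
    intro n b hb
    by_contra hcon
    push Not at hcon
    apply hb
    have h1 : b = ⨆ d ∈ D n, b ⊓ d := by
      rw [← inf_sSup_eq, hD n, inf_top_eq]
    rw [h1]
    simp only [iSup_eq_bot]
    intro d hd
    by_contra hne
    exact hcon (b ⊓ d) hne inf_le_left d hd inf_le_right
  choose! c hc using step
  let b : ℕ → A := fun n => Nat.rec a (fun n b => c n b) n
  have hb : ∀ n, b n ≠ ⊥ := by
    intro n
    induction n with
    | zero => exact ha
    | succ n ih => exact (hc n (b n) ih).1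
  have hanti : Antitone b := antitone_nat_of_succ_le fun n => (hc n (b n) (hb n)).2.1
  obtain ⟨g, hg⟩ := Ult.exists_ge (Set.range b) (by
    rintro _ ⟨m, rfl⟩ _ ⟨n, rfl⟩
    exact ⟨b (max m n), ⟨_, rfl⟩, le_inf (hanti (le_max_left _ _)) (hanti (le_max_right _ _))⟩)
    ⟨a, 0, rfl⟩ (by rintro ⟨n, hn⟩; exact hb n hn)
  refine ⟨g, hg _ ⟨0, rfl⟩, hX g fun n => ?_⟩
  obtain ⟨d, hd, h2⟩ := (hc n (b n) (hb n)).2.2
  exact ⟨d, hd, g.mono h2 (hg _ ⟨n + 1, rfl⟩)⟩

theorem le_of_ae {a b : A} (h : ∀ᶠ g in ae A, a ∈ g → b ∈ g) : a ≤ b := by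
  by_contra hcon
  have h1 : a ⊓ bᶜ ≠ ⊥ := by
    intro h2
    apply hcon
    rw [← compl_compl b, le_compl_iff_disjoint_right, disjoint_iff]
    exact h2
  obtain ⟨g, hg, hx⟩ := exists_of_ae h h1
  rw [g.mem_inf, g.mem_compl] at hg
  exact hg.2 (hx hg.1)

theorem le_iff_ae {a b : A} : a ≤ b ↔ ∀ᶠ g in ae A, a ∈ g → b ∈ g :=
  ⟨fun h => Filter.Eventually.of_forall fun g => g.mono h, le_of_ae⟩

theorem eq_of_ae {a b : A} (h : ∀ᶠ g in ae A, a ∈ g ↔ b ∈ g) : a = b :=
  le_antisymm (le_of_ae (h.mono fun _ hg => hg.1)) (le_of_ae (h.mono fun _ hg => hg.2))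

theorem ae_sSup (s : Set A) : ∀ᶠ g in ae A, sSup s ∈ g ↔ ∃ a ∈ s, a ∈ g := by
  have h : sSup (insert (sSup s)ᶜ s) = ⊤ := by
    rw [sSup_insert, compl_sup_eq_top]
  filter_upwards [ae_of_sSup h] with g hg
  refine ⟨fun hs => ?_, fun ⟨a, ha, hag⟩ => g.mono (le_sSup ha) hag⟩
  obtain ⟨d, hd, hdg⟩ := hg
  rcases hd with rfl | hd
  · exact absurd hs (g.mem_compl.1 hdg)
  · exact ⟨d, hd, hdg⟩

theorem ae_iSup {ι : Sort*} (a : ι → A) : ∀ᶠ g in ae A, (⨆ i, a i) ∈ g ↔ ∃ i, a i ∈ g := by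
  filter_upwards [ae_sSup (Set.range a)] with g hg
  rw [sSup_range] at hg
  rw [hg]
  simp

theorem ae_iInf {ι : Sort*} [Countable ι] (a : ι → A) :
    ∀ᶠ g in ae A, (⨅ i, a i) ∈ g ↔ ∀ i, a i ∈ g := by
  filter_upwards [ae_iSup fun i => (a i)ᶜ] with g hg
  rw [← compl_iInf, g.mem_compl] at hg
  constructor
  · intro h i
    exact g.mono (iInf_le a i) h
  · intro h
    by_contra hc
    obtain ⟨i, hi⟩ := hg.1 hc
    exact g.mem_compl.1 hi (h i)

end

section

variable {A C : Type u} [CompleteBooleanAlgebra A] [CompleteBooleanAlgebra C] {f : A → C}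

/-- Restriction of an ultrafilter to a complete subalgebra. -/
def Ult.pull (hf : IsCE f) (h : Ult C) : Ult A where
  s := {a | f a ∈ h}
  top := by
    have := all_alg A C f hf
    simp only [Set.mem_setOf_eq, this.1]
    exact h.mem_top
  bot := by
    have := all_alg A C f hf
    simp only [Set.mem_setOf_eq, this.2.1]
    exact h.not_bot
  inf a b ha hb := by
    have := all_alg A C f hf
    simp only [Set.mem_setOf_eq, this.2.2.1]
    exact h.inf _ _ ha hb
  up a b hab ha := by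
    have := all_alg A C f hf
    exact h.mono ((this.2.2.2.2.1 a b).2 hab) ha
  em a := by
    simp only [Set.mem_setOf_eq, hf.compl]
    exact h.em _

theorem Ult.mem_pull {hf : IsCE f} {h : Ult C} {a : A} : a ∈ h.pull hf ↔ f a ∈ h := Iff.rfl

/-- What holds almost everywhere for `A` holds almost everywhere for the restrictions of the
ultrafilters of `C`. -/
theorem ae_pull (hf : IsCE f) {P : Ult A → Prop} (hP : ∀ᶠ g in ae A, P g) :
    ∀ᶠ h in ae C, P (h.pull hf) := by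
  obtain ⟨D, hD, hX⟩ := hP
  refine ⟨fun n => f '' D n, fun n => ?_, fun h hh => hX _ fun n => ?_⟩
  · have h1 := hf.sSup (D n)
    rw [hD n, (all_alg A C f hf).1] at h1
    rw [sSup_image, ← h1]
  · obtain ⟨_, ⟨d, hd, rfl⟩, hdh⟩ := hh n
    exact ⟨d, hd, hdh⟩

/-- If `prj f c ∈ g` for a set of ultrafilters `g` of `A` which is large enough, then `c` has
ultrafilters extending one of them. -/
theorem exists_pull (hf : IsCE f) {P : Ult A → Prop} (hP : ∀ᶠ g in ae A, P g) {Q : Ult C → Prop}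
    (hQ : ∀ᶠ h in ae C, Q h) {c : C} (hc : c ≠ ⊥) :
    ∃ h : Ult C, c ∈ h ∧ Q h ∧ P (h.pull hf) := by
  obtain ⟨h, h1, h2, h3⟩ := exists_of_ae (hQ.and (ae_pull hf hP)) hc
  exact ⟨h, h1, h2, h3⟩

end

/-! ## Measurability -/

section

variable (A : Type u) [CompleteBooleanAlgebra A]

/-- The sets of ultrafilters of `A` which have a Boolean value. -/
instance ms : MeasurableSpace (Ult A) where
  MeasurableSet' E := ∃ a : A, ∀ᶠ g in ae A, a ∈ g ↔ g ∈ E
  measurableSet_empty := ⟨⊥, Filter.Eventually.of_forall fun g => by simp [g.not_bot]⟩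
  measurableSet_compl := by
    rintro E ⟨a, ha⟩
    refine ⟨aᶜ, ha.mono fun g hg => ?_⟩
    rw [g.mem_compl, hg, Set.mem_compl_iff]
  measurableSet_iUnion := by
    intro E hE
    choose a ha using hE
    refine ⟨⨆ n, a n, ?_⟩
    filter_upwards [ae_all ha, ae_iSup a] with g h1 h2
    rw [h2, Set.mem_iUnion]
    exact exists_congr h1

theorem measurable_mem (a : A) : MeasurableSet {g : Ult A | a ∈ g} :=
  ⟨a, Filter.Eventually.of_forall fun _ => Iff.rfl⟩

variable {A}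

/-- Names from measurable families of sets of ultrafilters. -/
theorem exists_name {J : Type v} [Countable J] {F : J → Ult A → Prop}
    (hF : ∀ j, MeasurableSet {g | F j g}) :
    ∃ x : J → A, ∀ᶠ g in ae A, ∀ j, x j ∈ g ↔ F j g := by
  choose x hx using hF
  exact ⟨x, ae_all hx⟩

/-- Names of functions from measurable functions. -/
theorem exists_fname {J : Type v} {K : Type w} [Countable J] [Countable K] {F : J → Ult A → K}
    (hF : ∀ j k, MeasurableSet {g | F j g = k}) :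
    ∃ x : J → K → A, ∀ᶠ g in ae A, ∀ j k, x j k ∈ g ↔ F j g = k := by
  choose x hx using hF
  exact ⟨x, ae_all fun j => ae_all fun k => hx j k⟩

/-- Measurability of functions with values in a countable set. -/
theorem measurable_of_fibers {K : Type w} [Countable K] [MeasurableSpace K] {F : Ult A → K}
    (hF : ∀ k, MeasurableSet {g | F g = k}) : Measurable F := by
  intro s _
  have : F ⁻¹' s = ⋃ k ∈ s, {g | F g = k} := by
    ext g; simp
  rw [this]
  exact MeasurableSet.biUnion s.to_countable fun k _ => hF k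

end

end Pool.Agent.Lib.MP_6d445e_gt
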